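import Mathlib

/-!
# Equal diagonal entries of `e^A` without cospectrality

For the nonnegative integer matrix
`A = [[2,0,0,2],[0,1,1,2],[2,1,1,0],[0,2,2,0]]`
one has `A^r = 4^(r-1) J` for `r ≥ 3` (`J` the all-ones matrix), while
`A₀₀ - A₁₁ = 1` and `(A²)₀₀ - (A²)₁₁ = -2`.  Hence `(e^A)₀₀ = (e^A)₁₁`, but the vertices `0` and `1`
are not cospectral.
-/

namespace Pool.Agent.Results.MP_513688_co.NotCospectral

open Matrix

/-- Two vertices are cospectral if all closed walk counts agree. -/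
def IsCospectral {n : ℕ} (A : Matrix (Fin n) (Fin n) ℝ) (i j : Fin n) : Prop :=
  ∀ r : ℕ, (A ^ r) i i = (A ^ r) j j

/-- `A` is diagonalizable over `ℂ`. -/
def IsDiagonalizable {n : ℕ} (A : Matrix (Fin n) (Fin n) ℝ) : Prop :=
  ∃ (P : Matrix (Fin n) (Fin n) ℂ) (d : Fin n → ℂ), IsUnit P ∧
    A.map (algebraMap ℝ ℂ) = P * Matrix.diagonal d * P⁻¹

/-- Two vertices are `β`-subgraph equivalent if the corresponding diagonal entries of the matrix
exponential `e^{βA}` agree. -/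
def IsSubgraphEquivalent {n : ℕ} (β : ℝ) (A : Matrix (Fin n) (Fin n) ℝ) (i j : Fin n) : Prop :=
  (NormedSpace.exp (β • A)) i i = (NormedSpace.exp (β • A)) j j

theorem hasSum_entry {n : ℕ} (A : Matrix (Fin n) (Fin n) ℝ) (i j : Fin n) :
    HasSum (fun r : ℕ => ((r.factorial : ℝ)⁻¹ • A ^ r) i j) ((NormedSpace.exp A) i j) := by
  open scoped Norms.Operator in
  have h := NormedSpace.exp_series_hasSum_exp' (𝕂 := ℝ) A
  exact Pi.hasSum.1 (Pi.hasSum.1 h i) j

/-- The counterexample. -/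
def A : Matrix (Fin 4) (Fin 4) ℝ := !![2, 0, 0, 2; 0, 1, 1, 2; 2, 1, 1, 0; 0, 2, 2, 0]

theorem A_sq : A ^ 2 = !![4, 4, 4, 4; 2, 6, 6, 2; 6, 2, 2, 6; 4, 4, 4, 4] := by
  rw [pow_two]
  ext i j
  fin_cases i <;> fin_cases j <;> simp [A, Matrix.mul_apply, Fin.sum_univ_four] <;> norm_num

theorem A_pow (r : ℕ) (i j : Fin 4) : (A ^ (r + 3)) i j = 4 ^ (r + 2) := by
  induction r generalizing i j with
  | zero =>
    rw [pow_succ, A_sq]
    fin_cases i <;> fin_cases j <;> simp [A, Matrix.mul_apply, Fin.sum_univ_four] <;> norm_num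
  | succ r ih =>
    rw [show r + 1 + 3 = (r + 3) + 1 by ring, pow_succ, Matrix.mul_apply]
    simp only [ih]
    fin_cases j <;> simp [A, Fin.sum_univ_four] <;> ring

theorem subgraph_equivalent : IsSubgraphEquivalent 1 A 0 1 := by
  unfold IsSubgraphEquivalent
  rw [one_smul]
  have h0 := hasSum_entry A 0 0
  have h1 := hasSum_entry A 1 1
  have h := h0.sub h1
  have hz : HasSum (fun r : ℕ => ((r.factorial : ℝ)⁻¹ • A ^ r) 0 0 -
      ((r.factorial : ℝ)⁻¹ • A ^ r) 1 1) 0 := by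
    have h3 : (0 : ℝ) = ∑ r ∈ Finset.range 3, (((r.factorial : ℝ)⁻¹ • A ^ r) 0 0 -
      ((r.factorial : ℝ)⁻¹ • A ^ r) 1 1) := by
      rw [Finset.sum_range_succ, Finset.sum_range_succ, Finset.sum_range_one, A_sq]
      simp [A]
      norm_num
    rw [h3]
    apply hasSum_sum_of_ne_finset_zero
    intro r hr
    obtain ⟨s, rfl⟩ : ∃ s, r = s + 3 := ⟨r - 3, by simp at hr; omega⟩
    simp only [Matrix.smul_apply, A_pow, sub_self]
  exact sub_eq_zero.1 (h.unique hz)

/-- If `A` were diagonalizable, the kernels of `A` and `A²` would agree. -/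
theorem not_diagonalizable : ¬ IsDiagonalizable A := by
  rintro ⟨P, d, hP, h⟩
  have hdet : IsUnit P.det := (Matrix.isUnit_iff_isUnit_det P).1 hP
  set M : Matrix (Fin 4) (Fin 4) ℂ := A.map (algebraMap ℝ ℂ) with hM
  let v : Fin 4 → ℂ := ![-1, 0, 0, 1]
  have hAv : M *ᵥ v ≠ 0 := by
    intro h0
    have := congrFun h0 1
    simp [hM, A, v, Matrix.mulVec, dotProduct, Fin.sum_univ_four] at this
  have hAAv : M *ᵥ (M *ᵥ v) = 0 := by
    rw [Matrix.mulVec_mulVec, ← pow_two]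
    have hsq : M ^ 2 = (A ^ 2).map (algebraMap ℝ ℂ) := by
      rw [hM, ← RingHom.mapMatrix_apply, ← map_pow, RingHom.mapMatrix_apply]
    rw [hsq, A_sq]
    ext i
    fin_cases i <;> simp [v, Matrix.mulVec, dotProduct, Fin.sum_univ_four]
  have hPinv : P⁻¹ * P = 1 := Matrix.nonsing_inv_mul P hdet
  have hPinv' : P * P⁻¹ = 1 := Matrix.mul_nonsing_inv P hdet
  set w := P⁻¹ *ᵥ v with hw
  have hMM : M * M = P * Matrix.diagonal (fun i => d i * d i) * P⁻¹ := by
    rw [h]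
    calc P * Matrix.diagonal d * P⁻¹ * (P * Matrix.diagonal d * P⁻¹)
        = P * Matrix.diagonal d * (P⁻¹ * P) * Matrix.diagonal d * P⁻¹ := by
          simp only [Matrix.mul_assoc]
      _ = P * (Matrix.diagonal d * Matrix.diagonal d) * P⁻¹ := by
          rw [hPinv, Matrix.mul_one, Matrix.mul_assoc P]
      _ = _ := by rw [Matrix.diagonal_mul_diagonal]
  have h1 : Matrix.diagonal (fun i => d i * d i) *ᵥ w = 0 := by
    have : P⁻¹ *ᵥ ((M * M) *ᵥ v) = 0 := by
      rw [← Matrix.mulVec_mulVec, hAAv, Matrix.mulVec_zero]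
    rw [hMM, Matrix.mulVec_mulVec] at this
    rw [hw, Matrix.mulVec_mulVec, ← this]
    congr 1
    rw [Matrix.mul_assoc P, ← Matrix.mul_assoc P⁻¹, hPinv, Matrix.one_mul]
  have h2 : Matrix.diagonal d *ᵥ w = 0 := by
    ext i
    have := congrFun h1 i
    rw [Matrix.mulVec_diagonal] at this ⊢
    simp only [Pi.zero_apply, mul_eq_zero] at this ⊢
    tauto
  apply hAv
  rw [h, ← Matrix.mulVec_mulVec, ← hw, ← Matrix.mulVec_mulVec, h2, Matrix.mulVec_zero]

/-- The implication (`β`-subgraph equivalent implies cospectral) fails for a nondiagonalizable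
matrix with nonnegative integer entries and `β = 1`. -/
theorem result : ∃ (n : ℕ) (A : Matrix (Fin n) (Fin n) ℝ) (β : ℝ) (i j : Fin n),
    (∀ u v, 0 ≤ A u v ∧ IsAlgebraic ℚ (A u v)) ∧ ¬ IsDiagonalizable A ∧
      β ≠ 0 ∧ IsAlgebraic ℚ β ∧ IsSubgraphEquivalent β A i j ∧ ¬ IsCospectral A i j := by
  refine ⟨4, A, 1, 0, 1, ?_, not_diagonalizable, one_ne_zero, isAlgebraic_one,
    subgraph_equivalent, ?_⟩
  · intro u v
    have key : ∃ m : ℕ, A u v = m := by
      refine ⟨(!![2, 0, 0, 2; 0, 1, 1, 2; 2, 1, 1, 0; 0, 2, 2, 0] : Matrix (Fin 4) (Fin 4) ℕ) u v, ?_⟩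
      fin_cases u <;> fin_cases v <;> simp [A]
    obtain ⟨m, hm⟩ := key
    rw [hm]
    exact ⟨Nat.cast_nonneg m, isAlgebraic_natCast m⟩
  · intro h
    have := h 1
    simp [A] at this

end Pool.Agent.Results.MP_513688_co.NotCospectral
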